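import Pool.Agent.H1.DC.Nx
import Pool.Agent.H1.TC.Values

/-!
# The semialgebraic form of Mazur's conjecture for Calabi-Yau cyclic covers of `(ℙ¹)ⁿ`

Let `F` be a form over `ℚ` of multidegree `(e, …, e)` on `(ℙ¹)ⁿ` such that the divisor `F = 0` is
smooth, and let `X : w^d = F`, `d ≥ 2`, be the cyclic cover of `(ℙ¹)ⁿ` branched along this divisor. Its
canonical bundle is the pull-back of the bundle of multidegree `e (d - 1) / d - 2`. We assume that it
is trivial, i.e. `e (d - 1) = 2 d`: these are the double covers with `e = 4` and the triple covers with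
`e = 3`. So `X` is a curve of genus one for `n = 1`, a K3 surface for `n = 2` and a Calabi-Yau variety
of dimension `n` for `n ≥ 3`. We consider the affine charts `w^d = f(z₁, …, z_n)` of `X`. For a subset
`J` of `{1, …, n}` and a rational point `a` let `X_(J, a)` be the fibre `z_j = a_j`, `j ∈ J`.

(1) The closure, in `ℝⁿ⁺¹`, of the set of the rational points with `w ≠ 0` is the union of finitely
many closed semialgebraic sets `C_(J, a) ⊆ X_(J, a)(ℝ)` such that each connected set of real points of
`X_(J, a)` with `w ≠ 0` is contained in `C_(J, a)` or disjoint from it; so the part `w ≠ 0` of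
`C_(J, a)` is a union of connected components of the part `w ≠ 0` of `X_(J, a)(ℝ)`. (This is the
strong form of Mazur's conjecture, up to the branch divisor.) For `d = 3` we have
`C_(J, a) = X_(J, a)(ℝ)`.

(2) In particular this closure is semialgebraic over `ℚ`.

(3) The closure of the set of all rational points is semialgebraic over `ℚ`, if this holds for the set
of those with `w = 0` (for instance if there are only finitely many; this is so for `n = 2` by
Faltings' theorem, which is not in Mathlib).

(4) The closure of the set of the values of `m` rational functions, with a common denominator, at the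
rational points, `w ≠ 0`, of products of such varieties and of an affine space is semialgebraic over
`ℚ`.

Idea of the proof for `d = 2`. Through each point there are `n` curves of genus one, the lines in
the directions of the coordinates. A theorem of the library (`Q35.TT`, by heights) says that only
finitely many rational points are torsion in all directions, and that only finitely many rational
points of a line are torsion in another direction, unless the line is special. So one can move a
rational point along the curves until one reaches a plane (a translate of a coordinate subspace) which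
is special: on it the derivatives of `F` in the other directions are constant multiples of `F`. The
new points are:

(a) There are only finitely many special planes, in all dimensions (`H1.DC.finSpec`; the library has
`n = 2`). Otherwise there is a field `E`, a quotient of the ring of the sequences in an algebraically
closed field `K`, and a special plane with coordinates in `E`, not all in `K`. Since the derivations
of `E` over `K` multiply the restriction of `F` to this plane by scalars, it is `g M`, with `g ∈ E` and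
a form `M` over `K`. There is a valuation ring of `E` over `K` for which `g` is not a unit, in suitable
homogeneous coordinates. Over its residue field the divisor contains a plane, and it is singular at the
zeros of `M` on this plane.

(b) Near each rational point which is not torsion in all directions there are rational points `z` of a
special plane for which the directions `b₁, …, b_r` of the plane can be ordered such that each `b_k` is
not torsion at a rational point of `z + ⟨b₁, …, b_(k-1)⟩` (`H1.DC.claC`). Here one needs that the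
curves in special planes are generically smooth (`H1.DC.gen_dc`), by an extension of the derivations of
the field of rational functions to its algebraic closure. For such points the closure of the set of
the rational points of the plane is known, by simultaneous approximation at the real and a `p`-adic
place (`Y718.X`).
-/

set_option autoImplicit false

namespace Pool.Agent.Results.MP_42de19_nt.CalabiYauCyclicCovers

open MvPolynomial

/-- Forms of multidegree `(e, …, e)` in `n` pairs of variables. -/
def IsForm {n : ℕ} (e : ℕ) (F : MvPolynomial (Fin n × Fin 2) ℚ) : Prop :=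
  ∀ m ∈ F.support, ∀ j, m (j, 0) + m (j, 1) = e

/-- The divisor `F = 0` in `(ℙ¹)ⁿ` is smooth: at each point some partial derivative is not zero.
(If all partial derivatives vanish, then `F` vanishes, by Euler's relation.) -/
def Smooth {n : ℕ} (F : MvPolynomial (Fin n × Fin 2) ℚ) : Prop :=
  ∀ x : Fin n × Fin 2 → ℂ, (∀ j, x (j, 0) ≠ 0 ∨ x (j, 1) ≠ 0) → ∃ p, aeval x (pderiv p F) ≠ 0

/-- The cyclic cover `w^d = F` of `(ℙ¹)ⁿ` is smooth and has a trivial canonical bundle. -/
structure CalabiYau {n : ℕ} (d : ℕ) (F : MvPolynomial (Fin n × Fin 2) ℚ) : Prop where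
  two_le : 2 ≤ d
  form : ∃ e : ℕ, IsForm e F ∧ e * (d - 1) = 2 * d
  smooth : Smooth F

/-- The polynomial `f` of an affine chart: in the pair `j` the variable with the index `ε j` is
replaced by `1`, the other one by `z_j`. -/
noncomputable def chart {n : ℕ} (F : MvPolynomial (Fin n × Fin 2) ℚ) (ε : Fin n → Fin 2) :
    MvPolynomial (Fin n) ℚ :=
  aeval (fun p : Fin n × Fin 2 => if p.2 = ε p.1 then (1 : MvPolynomial (Fin n) ℚ) else X p.1) F

/-- The rational points `(w, z)` of `w^d = f(z)`. -/
def points {n : ℕ} (d : ℕ) (f : MvPolynomial (Fin n) ℚ) : Set (Fin (n + 1) → ℚ) :=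
  {q | q 0 ^ d = eval (Fin.tail q) f}

/-- The real points of `w^d = f(z)` with `z_j = a_j` for `j ∈ J`, where `s = (J, a)`. -/
def fibre {n : ℕ} (d : ℕ) (f : MvPolynomial (Fin n) ℚ) (s : Finset (Fin n) × (Fin n → ℚ)) :
    Set (Fin (n + 1) → ℝ) :=
  {x | x 0 ^ d = aeval (Fin.tail x) f ∧ ∀ j ∈ s.1, x j.succ = (s.2 j : ℝ)}

/-- The closure in `ℝᵐ` of a set of rational points. -/
def realClosure {m : ℕ} (S : Set (Fin m → ℚ)) : Set (Fin m → ℝ) :=
  closure {x | ∃ q ∈ S, ∀ i, x i = (q i : ℝ)}

/-- Semialgebraic subsets of `ℝⁿ` defined over `ℚ`. -/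
def Semialgebraic {n : ℕ} (S : Set (Fin n → ℝ)) : Prop :=
  ∃ (m : ℕ) (P : Fin m → MvPolynomial (Fin n) ℚ) (G : Fin m → Finset (MvPolynomial (Fin n) ℚ)),
    S = {x : Fin n → ℝ | ∃ j : Fin m, (aeval x (P j) : ℝ) = 0 ∧
      ∀ g ∈ G j, (0 : ℝ) < aeval x g}

section aux

open Pool.Agent.H581R2 Pool.Agent.TH729.SQ Pool.Agent.H1.DC

lemma Semialgebraic.sa {n : ℕ} {S : Set (Fin n → ℝ)} (h : Semialgebraic S) : SA S := by
  obtain ⟨m, P, G, rfl⟩ := h
  exact Pool.Agent.H1.TC.SA.of_frozen P G

lemma cases_of {d e : ℕ} (hd : 2 ≤ d) (h : e * (d - 1) = 2 * d) :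
    (d = 2 ∧ e = 4) ∨ (d = 3 ∧ e = 3) := by
  obtain ⟨m, rfl⟩ : ∃ m, d = m + 1 := ⟨d - 1, by omega⟩
  rw [Nat.add_sub_cancel] at h
  have h1 : m ∣ 2 := by
    have h2 : m ∣ 2 * m + 2 := ⟨e, by rw [mul_comm m e, h]; ring⟩
    exact (Nat.dvd_add_right (Dvd.intro_left 2 rfl)).1 h2
  have h2 : m ≤ 2 := Nat.le_of_dvd (by norm_num) h1
  interval_cases m
  · omega
  · omega
  · omega

lemma realClosure_eq {m : ℕ} (S : Set (Fin m → ℚ)) : realClosure S = closure (rl S) := by
  unfold realClosure rl
  congr 1
  ext x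
  exact exists_congr fun q => and_congr_right fun _ => funext_iff.symm

/-- smoothness over the algebraic closure -/
lemma smoothF_gen {k Ω : Type} [Field k] [Field Ω] [Algebra k Ω] [IsAlgClosed Ω] {n : ℕ}
    {F : MvPolynomial (Fin n × Fin 2) k}
    (h : ∀ x : Fin n × Fin 2 → Ω, (∀ j, x (j, 0) ≠ 0 ∨ x (j, 1) ≠ 0) →
      ∃ p, aeval x (pderiv p F) ≠ 0) : Pool.Agent.Q35.TT.SmoothF F := by
  intro x hx
  let φ : AlgebraicClosure k →ₐ[k] Ω := IsAlgClosed.lift
  obtain ⟨p, hp⟩ := h (fun p => φ (x p)) fun j => by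
    obtain ⟨b, hb⟩ := hx j
    have : φ (x (j, b)) ≠ 0 := (map_ne_zero φ).2 hb
    fin_cases b
    · exact Or.inl this
    · exact Or.inr this
  refine ⟨p, fun h0 => hp ?_⟩
  have h1 : aeval (fun p => φ (x p)) (pderiv p F) = φ (aeval x (pderiv p F)) :=
    (comp_aeval_apply x φ _).symm
  rw [h1, h0, map_zero]

lemma smoothF_of {n : ℕ} {F : MvPolynomial (Fin n × Fin 2) ℚ} (h : Smooth F) :
    Pool.Agent.Q35.TT.SmoothF F := smoothF_gen (Ω := ℂ) h

lemma isClosed_fibre {n : ℕ} (d : ℕ) (f : MvPolynomial (Fin n) ℚ)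
    (s : Finset (Fin n) × (Fin n → ℚ)) : IsClosed (fibre d f s) := by
  have e : fibre d f s = {x | x 0 ^ d = aeval (Fin.tail x) f} ∩
      ⋂ j, ⋂ (_ : j ∈ s.1), {x : Fin (n + 1) → ℝ | x j.succ = (s.2 j : ℝ)} := by
    ext x
    simp [fibre]
  rw [e]
  refine IsClosed.inter (isClosed_eq ((continuous_apply 0).pow d) ?_)
    (isClosed_iInter fun k => isClosed_iInter fun _ =>
      isClosed_eq (continuous_apply _) continuous_const)
  exact (Pool.Agent.TH729.SQ.PF.continuous (PF.aeval f)).comp (continuous_pi fun k => continuous_apply (Fin.succ k))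

/-- double covers -/
lemma double {n : ℕ} {F : MvPolynomial (Fin n × Fin 2) ℚ} (hF : IsForm 4 F) (hs : Smooth F)
    (ε : Fin n → Fin 2) :
    ∃ (S : Finset (Finset (Fin n) × (Fin n → ℚ)))
      (C : Finset (Fin n) × (Fin n → ℚ) → Set (Fin (n + 1) → ℝ)),
      realClosure {q ∈ points 2 (chart F ε) | q 0 ≠ 0} = ⋃ s ∈ S, C s ∧
      ∀ s ∈ S, IsClosed (C s) ∧ SA (C s) ∧ C s ⊆ fibre 2 (chart F ε) s ∧
        ∀ U ⊆ fibre 2 (chart F ε) s, (∀ x ∈ U, x 0 ≠ 0) → IsPreconnected U →
          U ⊆ C s ∨ Disjoint U (C s) := by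
  classical
  obtain ⟨R, T, hR, hT, h⟩ := exists_cover (F := F) hF (smoothF_of hs) ε
  set f := chart F ε with hf
  have hf' : Pool.Agent.Q35.TT.ch F ε = f := rfl
  rw [hf'] at h
  have hR' : (R ∪ (fun t => ((∅ : Finset (Fin n)), t)) '' T).Finite := hR.union (hT.image _)
  refine ⟨hR'.toFinset.image fun s => (s.1ᶜ, s.2), fun s => closure (rl (TP f s.1ᶜ s.2)), ?_, ?_⟩
  · rw [realClosure_eq]
    have hP : {q ∈ points 2 f | q 0 ≠ 0} = PP2 f := by
      ext q
      exact and_comm
    rw [hP]
    apply Set.Subset.antisymm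
    · refine closure_minimal ?_ ?_
      · rintro _ ⟨u, hu, rfl⟩
        rw [Set.mem_iUnion₂]
        rcases h u hu with ht | ⟨s, hs, hus⟩
        · refine ⟨(∅ᶜ, fun k => u k.succ), ?_, subset_closure ⟨u, ?_, rfl⟩⟩
          · rw [Finset.mem_image]
            exact ⟨(∅, fun k => u k.succ), by
              rw [Set.Finite.mem_toFinset]
              exact Or.inr ⟨_, ht, rfl⟩, rfl⟩
          · rw [compl_compl]
            refine ⟨⟨hu.1, ?_, ?_⟩, fun _ _ => rfl⟩
            · rw [Pool.Agent.Q224.TT.eval_res, Pool.Agent.Q224.TT.mix_eq (fun _ _ => rfl)]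
              exact hu.2
            · refine nx_of_chn ?_ (fun _ _ => rfl) ⟨fun _ => 0, fun k hk => ?_⟩
              · exact (Pool.Agent.Q182.TT.CHF.chf ℚ n F hF ε).1
              · exact absurd hk (Finset.notMem_empty k)
        · refine ⟨(s.1ᶜ, s.2), ?_, ?_⟩
          · rw [Finset.mem_image]
            exact ⟨s, by
              rw [Set.Finite.mem_toFinset]
              exact Or.inl hs, rfl⟩
          · simp only [compl_compl]
            exact hus
      · exact (Finset.finite_toSet _).isClosed_biUnion fun s _ => isClosed_closure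
    · refine Set.iUnion₂_subset fun s _ => closure_mono ?_
      rintro _ ⟨u, hu, rfl⟩
      exact ⟨u, TP_sub f _ _ hu, rfl⟩
  · intro s _
    refine ⟨isClosed_closure, TP_SA f _ _, ?_, ?_⟩
    · refine closure_minimal ?_ (isClosed_fibre 2 f s)
      rintro _ ⟨u, hu, rfl⟩
      refine ⟨?_, fun j hj => ?_⟩
      · have h1 := (TP_sub f _ _ hu).2
        have h2 : (aeval (Fin.tail fun i => (u i : ℝ)) f : ℝ) = ((eval (fun k => u k.succ) f : ℚ) : ℝ) :=
          aeval_cast _ f
        rw [h2, ← h1]
        push_cast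
        rfl
      · have h1 := hu.2 j (by rw [Finset.mem_compl, not_not]; exact hj)
        simp only at h1 ⊢
        rw [h1]
    · intro U hU hU0 hUc
      refine TP_mazur f _ _ U (fun x hx => ⟨hU0 x hx, (hU hx).1, fun k hk => (hU hx).2 k ?_⟩) hUc
      rw [Finset.mem_compl, not_not] at hk
      exact hk

end aux

/-- **Calabi-Yau cyclic covers of `(ℙ¹)ⁿ`.** -/
theorem result :
    (∀ (n d : ℕ) (F : MvPolynomial (Fin n × Fin 2) ℚ), CalabiYau d F → ∀ ε : Fin n → Fin 2,
      -- (1) the structure of the closure of the set of the rational points with `w ≠ 0`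
      (∃ (S : Finset (Finset (Fin n) × (Fin n → ℚ)))
        (C : Finset (Fin n) × (Fin n → ℚ) → Set (Fin (n + 1) → ℝ)),
        realClosure {q ∈ points d (chart F ε) | q 0 ≠ 0} = ⋃ s ∈ S, C s ∧
        ∀ s ∈ S, IsClosed (C s) ∧ Semialgebraic (C s) ∧ C s ⊆ fibre d (chart F ε) s ∧
          (∀ U ⊆ fibre d (chart F ε) s, (∀ x ∈ U, x 0 ≠ 0) → IsPreconnected U →
            U ⊆ C s ∨ Disjoint U (C s)) ∧
          (d = 3 → C s = fibre d (chart F ε) s)) ∧
      -- (2) it is semialgebraic
      Semialgebraic (realClosure {q ∈ points d (chart F ε) | q 0 ≠ 0}) ∧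
      -- (3) the closure of the set of all rational points
      (Semialgebraic (realClosure {q ∈ points d (chart F ε) | q 0 = 0}) →
        Semialgebraic (realClosure (points d (chart F ε))))) ∧
    -- (4) the closure of the set of the values of rational functions on products
    (∀ (J κ : Type) [Finite J] [Finite κ] (n d : J → ℕ)
      (F : ∀ j, MvPolynomial (Fin (n j) × Fin 2) ℚ), (∀ j, CalabiYau (d j) (F j)) →
      ∀ (ε : ∀ j, Fin (n j) → Fin 2) (m : ℕ)
        (p : Fin m → MvPolynomial ((Σ j, Fin (n j + 1)) ⊕ κ) ℚ)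
        (q : MvPolynomial ((Σ j, Fin (n j + 1)) ⊕ κ) ℚ),
        Semialgebraic (closure {y : Fin m → ℝ | ∃ x : (Σ j, Fin (n j + 1)) ⊕ κ → ℚ,
          (∀ j, (fun i => x (Sum.inl ⟨j, i⟩)) ∈ points (d j) (chart (F j) (ε j)) ∧
            x (Sum.inl ⟨j, 0⟩) ≠ 0) ∧
          eval x q ≠ 0 ∧ ∀ k, y k = ((eval x (p k) / eval x q : ℚ) : ℝ)})) := by
  have key : ∀ (n d : ℕ) (F : MvPolynomial (Fin n × Fin 2) ℚ), CalabiYau d F →
      ∀ ε : Fin n → Fin 2,
      (∃ (S : Finset (Finset (Fin n) × (Fin n → ℚ)))
        (C : Finset (Fin n) × (Fin n → ℚ) → Set (Fin (n + 1) → ℝ)),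
        realClosure {q ∈ points d (chart F ε) | q 0 ≠ 0} = ⋃ s ∈ S, C s ∧
        ∀ s ∈ S, IsClosed (C s) ∧ Pool.Agent.H581R2.SA (C s) ∧ C s ⊆ fibre d (chart F ε) s ∧
          (∀ U ⊆ fibre d (chart F ε) s, (∀ x ∈ U, x 0 ≠ 0) → IsPreconnected U →
            U ⊆ C s ∨ Disjoint U (C s)) ∧
          (d = 3 → C s = fibre d (chart F ε) s)) := by
    rintro n d F ⟨hd, ⟨e, hF, he⟩, hs⟩ ε
    rcases cases_of hd he with ⟨rfl, rfl⟩ | ⟨rfl, rfl⟩
    · obtain ⟨S, C, h1, h2⟩ := double hF hs ε
      exact ⟨S, C, h1, fun s hs' => ⟨(h2 s hs').1, (h2 s hs').2.1, (h2 s hs').2.2.1,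
        (h2 s hs').2.2.2, fun h => absurd h (by norm_num)⟩⟩
    · obtain ⟨S, hS⟩ := Pool.Agent.H1.TC.smooth_closure hF hs ε
      have e1 : realClosure {q ∈ points 3 (chart F ε) | q 0 ≠ 0} =
          closure (Pool.Agent.H1.TC.X0 (chart F ε)) := by
        unfold realClosure
        congr 1
        ext x
        constructor
        · rintro ⟨q, ⟨hq, h0⟩, hx⟩
          exact ⟨q, h0, hq, hx⟩
        · rintro ⟨q, h0, hq, hx⟩
          exact ⟨q, ⟨hq, h0⟩, hx⟩
      refine ⟨S, fun s => fibre 3 (chart F ε) s, ?_, fun s hs' => ⟨?_, ?_, Set.Subset.refl _,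
        fun U hU _ _ => Or.inl hU, fun _ => rfl⟩⟩
      · rw [e1]
        refine Eq.trans hS ?_
        ext x
        rw [Set.mem_iUnion₂]
        constructor
        · rintro ⟨h1, s, hs', h2⟩
          exact ⟨s, hs', h1, h2⟩
        · rintro ⟨s, hs', h1, h2⟩
          exact ⟨h1, s, hs', h2⟩
      · exact isClosed_fibre 3 _ s
      · have h1 := Pool.Agent.H1.TC.SA_coord (chart F ε) {s}
        have e : fibre 3 (chart F ε) s = {x | x ∈ Pool.Agent.H1.TC.XR (chart F ε) ∧
            ∃ s' ∈ ({s} : Finset (Finset (Fin n) × (Fin n → ℚ))), ∀ j ∈ s'.1,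
              Fin.tail x j = (s'.2 j : ℝ)} := by
          ext x
          constructor
          · rintro ⟨g1, g2⟩
            exact ⟨g1, s, Finset.mem_singleton_self s, g2⟩
          · rintro ⟨g1, s', hs'', g2⟩
            rw [Finset.mem_singleton] at hs''
            subst hs''
            exact ⟨g1, g2⟩
        change Pool.Agent.H581R2.SA (fibre 3 (chart F ε) s)
        rw [e]
        exact h1
  have hsa : ∀ (n d : ℕ) (F : MvPolynomial (Fin n × Fin 2) ℚ), CalabiYau d F →
      ∀ ε : Fin n → Fin 2, Pool.Agent.H581R2.SA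
        (realClosure {q ∈ points d (chart F ε) | q 0 ≠ 0}) := by
    intro n d F hF ε
    obtain ⟨S, C, h1, h2⟩ := key n d F hF ε
    rw [h1]
    have h3 : Pool.Agent.H581R2.SAP fun x : Fin (n + 1) → ℝ => ∃ s ∈ S, x ∈ C s := by
      classical
      have h4 : Pool.Agent.H581R2.SAP fun x : Fin (n + 1) → ℝ =>
          ∃ s ∈ S, x ∈ (if s ∈ S then C s else ∅) := by
        refine Pool.Agent.H581R2.SAP.exists_mem S fun s hs => ?_
        have h5 : Pool.Agent.H581R2.SA (if s ∈ S then C s else ∅) := by
          rw [if_pos hs]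
          exact (h2 s hs).2.1
        exact h5
      refine h4.congr fun x => ?_
      constructor
      · rintro ⟨s, hs, hx⟩
        exact ⟨s, hs, by rwa [if_pos hs]⟩
      · rintro ⟨s, hs, hx⟩
        exact ⟨s, hs, by rwa [if_pos hs] at hx⟩
    have e : (⋃ s ∈ S, C s) = {x | ∃ s ∈ S, x ∈ C s} := by
      ext x
      simp
    rw [e]
    exact h3
  refine ⟨fun n d F hF ε => ⟨?_, Pool.Agent.TH729.SQ.SA.frozen (hsa n d F hF ε), fun h => ?_⟩, ?_⟩
  · obtain ⟨S, C, h1, h2⟩ := key n d F hF ε
    exact ⟨S, C, h1, fun s hs => ⟨(h2 s hs).1, Pool.Agent.TH729.SQ.SA.frozen (h2 s hs).2.1,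
      (h2 s hs).2.2⟩⟩
  · have e : realClosure (points d (chart F ε)) =
        realClosure {q ∈ points d (chart F ε) | q 0 ≠ 0} ∪
          realClosure {q ∈ points d (chart F ε) | q 0 = 0} := by
      unfold realClosure
      rw [← closure_union]
      congr 1
      ext x
      constructor
      · rintro ⟨q, hq, hx⟩
        by_cases h0 : q 0 = 0
        · exact Or.inr ⟨q, ⟨hq, h0⟩, hx⟩
        · exact Or.inl ⟨q, ⟨hq, h0⟩, hx⟩
      · rintro (⟨q, ⟨hq, -⟩, hx⟩ | ⟨q, ⟨hq, -⟩, hx⟩)
        · exact ⟨q, hq, hx⟩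
        · exact ⟨q, hq, hx⟩
    rw [e]
    exact Pool.Agent.TH729.SQ.SA.frozen ((hsa n d F hF ε).union h.sa)
  · intro J κ _ _ n d F hF ε m p q
    refine Pool.Agent.TH729.SQ.SA.frozen ?_
    have h1 := Pool.Agent.H1.TC.SA_values (Pool.Agent.H1.TC.SA_cl_prod (κ := κ)
      (fun j => n j + 1) (fun j => {q ∈ points (d j) (chart (F j) (ε j)) | q 0 ≠ 0})
      fun j => hsa _ _ _ (hF j) (ε j)) p q
    exact h1

end Pool.Agent.Results.MP_42de19_nt.CalabiYauCyclicCovers
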