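import Pool.Agent.H1.TC.Deg

/-!
# Mazur's conjecture for cyclic triple covers `w³ = f(z₁, …, z_n)`

`f` is a polynomial over `ℚ` in `n` variables, and `X` is the hypersurface `w³ = f(z)`. A vector
`v ∈ ℚⁿ` is a direction of degree at most three if `f` has degree at most three on all lines
parallel to `v`. Suppose that these directions span `ℚⁿ`, for example that `f` has degree at most
three in each of the variables; then `X` is a cyclic triple cover of `(ℙ¹)ⁿ` branched along a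
divisor of multidegree at most `(3, …, 3)`: for `n = 2` in general a K3 surface, for `n ≥ 3` in
general a Calabi-Yau variety. (Another example is `y² = x³ + F(t₁, …, t_m)` with `F` of degree at
most three in each variable.)

If `f(z + s v) = c₀ + c₁ s + c₂ s² + c₃ s³`, let `H = c₁² - 3 c₀ c₂`,
`Q = 2 c₁³ - 9 c₀ c₁ c₂ + 27 c₀² c₃` and `N = H Q (Q² - 3 H³) (2 Q² - 9 H³)`.

(1) Suppose that there is a rational point `(w, z)`, `w ≠ 0`, of `X` such that for each direction
`v` of the given spanning set of directions of degree at most three either `N(z) ≠ 0`, or `H` and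
`Q` vanish identically (then `f` is a constant times a cube on each line parallel to `v`). Then
`X(ℚ)` is dense in `X(ℝ)`.

(2) Mazur's conjecture: either `X(ℚ)` is dense in `X(ℝ)`, or `X(ℚ)` is contained in a proper Zariski
closed subset `g(z) = 0`, `g ≠ 0`. So if `X(ℚ)` is Zariski dense, then it is dense in `X(ℝ)`.

(3) This holds in particular if `f` has degree at most three in each variable.
-/

set_option autoImplicit false

namespace Pool.Agent.Results.MP_42de19_nt.TripleCovers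

open MvPolynomial

/-- The polynomial `f(z + s v)` in `s`. -/
noncomputable def restriction {n : ℕ} (f : MvPolynomial (Fin n) ℚ) (z v : Fin n → ℚ) :
    Polynomial ℚ :=
  aeval (fun k => Polynomial.C (z k) + Polynomial.C (v k) * Polynomial.X) f

/-- The coefficient of `s ^ k` in `f(z + s v)`. -/
noncomputable def c {n : ℕ} (f : MvPolynomial (Fin n) ℚ) (z v : Fin n → ℚ) (k : ℕ) : ℚ :=
  (restriction f z v).coeff k

/-- `H = c₁² - 3 c₀ c₂`. -/
noncomputable def H {n : ℕ} (f : MvPolynomial (Fin n) ℚ) (z v : Fin n → ℚ) : ℚ :=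
  c f z v 1 ^ 2 - 3 * c f z v 0 * c f z v 2

/-- `Q = 2 c₁³ - 9 c₀ c₁ c₂ + 27 c₀² c₃`. -/
noncomputable def Q {n : ℕ} (f : MvPolynomial (Fin n) ℚ) (z v : Fin n → ℚ) : ℚ :=
  2 * c f z v 1 ^ 3 - 9 * c f z v 0 * c f z v 1 * c f z v 2 + 27 * c f z v 0 ^ 2 * c f z v 3

/-- `N = H Q (Q² - 3 H³) (2 Q² - 9 H³)`. -/
noncomputable def N {n : ℕ} (f : MvPolynomial (Fin n) ℚ) (z v : Fin n → ℚ) : ℚ :=
  H f z v * Q f z v * (Q f z v ^ 2 - 3 * H f z v ^ 3) * (2 * Q f z v ^ 2 - 9 * H f z v ^ 3)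

/-- The rational points of `w³ = f(z)`, as a subset of `ℝⁿ⁺¹`; the first coordinate is `w`. -/
def ratPoints {n : ℕ} (f : MvPolynomial (Fin n) ℚ) : Set (Fin (n + 1) → ℝ) :=
  {x | ∃ q : Fin (n + 1) → ℚ, q 0 ^ 3 = eval (Fin.tail q) f ∧ ∀ i, x i = (q i : ℝ)}

/-- The real points of `w³ = f(z)`. -/
def realPoints {n : ℕ} (f : MvPolynomial (Fin n) ℚ) : Set (Fin (n + 1) → ℝ) :=
  {x | x 0 ^ 3 = aeval (Fin.tail x) f}

/-- **Mazur's conjecture for cyclic triple covers.** -/
theorem result :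
    (∀ (n : ℕ) (f : MvPolynomial (Fin n) ℚ) (V : Set (Fin n → ℚ)), f ≠ 0 →
      Submodule.span ℚ V = ⊤ → (∀ v ∈ V, ∀ z, (restriction f z v).natDegree ≤ 3) →
      -- (1) a criterion
      (∀ q : Fin (n + 1) → ℚ, q 0 ≠ 0 → q 0 ^ 3 = eval (Fin.tail q) f →
        (∀ v ∈ V, N f (Fin.tail q) v ≠ 0 ∨ ∀ z, H f z v = 0 ∧ Q f z v = 0) →
        closure (ratPoints f) = realPoints f) ∧
      -- (2) a dichotomy
      (closure (ratPoints f) = realPoints f ∨
        ∃ g : MvPolynomial (Fin n) ℚ, g ≠ 0 ∧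
          ∀ q : Fin (n + 1) → ℚ, q 0 ^ 3 = eval (Fin.tail q) f → eval (Fin.tail q) g = 0)) ∧
    -- (3) the dichotomy for polynomials of degree at most three in each variable
    (∀ (n : ℕ) (f : MvPolynomial (Fin n) ℚ), f ≠ 0 → (∀ i, f.degreeOf i ≤ 3) →
      closure (ratPoints f) = realPoints f ∨
        ∃ g : MvPolynomial (Fin n) ℚ, g ≠ 0 ∧
          ∀ q : Fin (n + 1) → ℚ, q 0 ^ 3 = eval (Fin.tail q) f → eval (Fin.tail q) g = 0) := by
  have key : ∀ (n : ℕ) (f : MvPolynomial (Fin n) ℚ) (V : Set (Fin n → ℚ)), f ≠ 0 →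
      Submodule.span ℚ V = ⊤ → (∀ v ∈ V, ∀ z, (restriction f z v).natDegree ≤ 3) →
      (closure (ratPoints f) = realPoints f ∨
        ∃ g : MvPolynomial (Fin n) ℚ, g ≠ 0 ∧
          ∀ q : Fin (n + 1) → ℚ, q 0 ^ 3 = eval (Fin.tail q) f →
            eval (Fin.tail q) g = 0) := by
    intro n f V hf hV hd
    rcases Pool.Agent.H1.TC.dichotomy hf hV hd with h | ⟨g, hg, h⟩
    · exact Or.inl h
    · exact Or.inr ⟨g, hg, fun q hq => h (Fin.tail q) ⟨q 0, hq⟩⟩
  refine ⟨fun n f V hf hV hd => ⟨?_, key n f V hf hV hd⟩, fun n f hf hd => ?_⟩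
  · intro q hq0 hq hN
    refine Pool.Agent.H1.TC.closure_eq_XR ?_
    rw [Pool.Agent.H1.TC.cubes_eq, Pool.Agent.H1.TC.rc_union,
      Pool.Agent.H1.TC.dense_of_point (z := Fin.tail q) hV hd ⟨q 0, hq0, hq⟩ hN,
      Set.univ_union]
  · refine key n f _ hf Pool.Agent.H1.TC.span_single ?_
    rintro _ ⟨i, rfl⟩ z
    exact Pool.Agent.H1.TC.natDegree_single (hd i) z

end Pool.Agent.Results.MP_42de19_nt.TripleCovers
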